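import Mathlib

/-!
# A Banach space with `𝒯(X) ≥ 1` and with relatively weakly open sets of diameter close to one

`X = ℝ ⊕ c₀` with the norm `max (|t|, ‖z‖_∞, sup_i |z_i - t|)`, realised as the closed subspace of
the triples `(t, z, b)` in `ℝ × c₀ × ℓ_∞` with `b_i = z_i - t`. Every relatively weakly open
subset of the ball contains, with `(t, z)`, the points `(t, z + (s - z_n) e_n)` for all large `n`,
where `s = 1` if `t ≥ 0` and `s = -1` otherwise; so no ball of radius less than one contains it.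
But the slice `{t > 1 - ε}` of the ball has diameter at most `1 + ε`.
-/

set_option autoImplicit false

open scoped Topology ZeroAtInfty BoundedContinuousFunction
open Filter

namespace Pool.Agent.Results.MP_4410f0_an.SmallSlices

/-- The weak topology of a normed space: the coarsest topology for which all continuous linear
functionals are continuous. -/
abbrev weakTopology (X : Type*) [NormedAddCommGroup X] [NormedSpace ℝ X] : TopologicalSpace X :=
  TopologicalSpace.induced (fun (x : X) (f : X →L[ℝ] ℝ) => f x) Pi.topologicalSpace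

/-- `W` is a relatively weakly open subset of the closed unit ball of `X`. -/
def IsRelWeaklyOpen {X : Type*} [NormedAddCommGroup X] [NormedSpace ℝ X] (W : Set X) : Prop :=
  ∃ U : Set X, IsOpen[weakTopology X] U ∧ W = U ∩ Metric.closedBall 0 1

/-- The Daugavet index of thickness of `X`. -/
noncomputable def thickness (X : Type*) [NormedAddCommGroup X] [NormedSpace ℝ X] : ℝ :=
  sInf {r : ℝ | 0 < r ∧ ∃ x : X, ‖x‖ = 1 ∧ ∃ W : Set X, IsRelWeaklyOpen W ∧ W.Nonempty ∧
    W ⊆ Metric.closedBall x r}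

/-- The ambient space `ℝ × c₀ × ℓ_∞` with the maximum norm. -/
def E : Type := ℝ × C₀(ℕ, ℝ) × (ℕ →ᵇ ℝ)

noncomputable instance : NormedAddCommGroup E :=
  inferInstanceAs (NormedAddCommGroup (ℝ × C₀(ℕ, ℝ) × (ℕ →ᵇ ℝ)))

noncomputable instance : NormedSpace ℝ E :=
  inferInstanceAs (NormedSpace ℝ (ℝ × C₀(ℕ, ℝ) × (ℕ →ᵇ ℝ)))

instance : CompleteSpace E :=
  inferInstanceAs (CompleteSpace (ℝ × C₀(ℕ, ℝ) × (ℕ →ᵇ ℝ)))

theorem E_fst_continuous : Continuous (fun p : E => p.1) :=
  (continuous_fst : Continuous (Prod.fst : ℝ × C₀(ℕ, ℝ) × (ℕ →ᵇ ℝ) → ℝ))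

theorem E_z_continuous : Continuous (fun p : E => p.2.1) :=
  (continuous_fst.comp continuous_snd :
    Continuous (fun p : ℝ × C₀(ℕ, ℝ) × (ℕ →ᵇ ℝ) => p.2.1))

theorem E_b_continuous : Continuous (fun p : E => p.2.2) :=
  (continuous_snd.comp continuous_snd :
    Continuous (fun p : ℝ × C₀(ℕ, ℝ) × (ℕ →ᵇ ℝ) => p.2.2))

/-- The space `X = ℝ ⊕ c₀`, as the set of all `(t, z, b)` with `b_i = z_i - t`. -/
def XS : Submodule ℝ E where
  carrier := {p | ∀ n, p.2.2 n = p.2.1 n - p.1}
  add_mem' := by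
    intro p q hp hq n
    have h1 := hp n
    have h2 := hq n
    show p.2.2 n + q.2.2 n = (p.2.1 n + q.2.1 n) - (p.1 + q.1)
    linarith
  zero_mem' := by
    intro n
    show (0 : ℝ) = 0 - 0
    simp
  smul_mem' := by
    intro c p hp n
    have h1 := hp n
    show c * p.2.2 n = c * p.2.1 n - c * p.1
    rw [h1]
    ring

/-- The space `X = ℝ ⊕ c₀`. -/
abbrev X : Type := XS

theorem isClosed_XS : IsClosed (XS : Set E) := by
  have h1 : (XS : Set E) = ⋂ n : ℕ, {p : E | p.2.2 n = p.2.1 n - p.1} := by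
    ext p
    simp only [Set.mem_iInter]
    rfl
  rw [h1]
  refine isClosed_iInter fun n => isClosed_eq ?_ ?_
  · exact (ContinuousEvalConst.continuous_eval_const (F := ℕ →ᵇ ℝ) n).comp E_b_continuous
  · refine Continuous.sub ?_ E_fst_continuous
    have h2 : Continuous fun z : C₀(ℕ, ℝ) => z n := by
      have h3 : (fun z : C₀(ℕ, ℝ) => z n) = (fun f : ℕ →ᵇ ℝ => f n) ∘
        (ZeroAtInftyContinuousMap.toBCF) := rfl
      rw [h3]
      exact (ContinuousEvalConst.continuous_eval_const (F := ℕ →ᵇ ℝ) n).comp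
        (ZeroAtInftyContinuousMap.isometry_toBCF).continuous
    exact h2.comp E_z_continuous

instance : CompleteSpace X := isClosed_XS.completeSpace_coe

theorem norm_le_iff (p : X) {r : ℝ} (hr : 0 ≤ r) :
    ‖p‖ ≤ r ↔ |p.1.1| ≤ r ∧ (∀ n, |p.1.2.1 n| ≤ r) ∧ ∀ n, |p.1.2.1 n - p.1.1| ≤ r := by
  have h1 : ‖p‖ = max ‖p.1.1‖ (max ‖p.1.2.1‖ ‖p.1.2.2‖) := rfl
  have h2 : ‖p.1.2.1‖ ≤ r ↔ ∀ n, |p.1.2.1 n| ≤ r := by
    have h3 : ‖p.1.2.1‖ = ‖p.1.2.1.toBCF‖ := rfl
    rw [h3, BoundedContinuousFunction.norm_le hr]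
    rfl
  have h4 : ‖p.1.2.2‖ ≤ r ↔ ∀ n, |p.1.2.1 n - p.1.1| ≤ r := by
    rw [BoundedContinuousFunction.norm_le hr]
    refine forall_congr' fun n => ?_
    rw [p.2 n, Real.norm_eq_abs]
  rw [h1, max_le_iff, max_le_iff, h2, h4, Real.norm_eq_abs]

/-- The finitely supported element of `c₀`. -/
noncomputable def fs (a : ℕ →₀ ℝ) : C₀(ℕ, ℝ) where
  toFun := a
  continuous_toFun := continuous_of_discreteTopology
  zero_at_infty' := by
    refine tendsto_const_nhds.congr' ?_
    rw [cocompact_eq_atTop]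
    obtain ⟨N, hN⟩ := a.support.bddAbove
    filter_upwards [eventually_gt_atTop N] with n hn
    by_contra hne
    have := hN (Finsupp.mem_support_iff.2 (Ne.symm hne))
    omega

/-- The element `(0, a)` of `X` for a finitely supported `a`. -/
noncomputable def fin (a : ℕ →₀ ℝ) : X :=
  ⟨(0, fs a, (fs a).toBCF), fun n => by
    simp only [sub_zero]
    rfl⟩

theorem fin_apply (a : ℕ →₀ ℝ) (n : ℕ) : (fin a).1.2.1 n = a n := rfl

theorem fin_fst (a : ℕ →₀ ℝ) : (fin a).1.1 = 0 := rfl

theorem X_ext {p q : X} (h1 : p.1.1 = q.1.1) (h2 : ∀ n, p.1.2.1 n = q.1.2.1 n) : p = q := by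
  apply Subtype.ext
  refine Prod.ext h1 (Prod.ext ?_ ?_)
  · ext n
    exact h2 n
  · ext n
    rw [p.2 n, q.2 n, h1, h2]

theorem functional_tendsto (f : X →L[ℝ] ℝ) :
    Tendsto (fun n => f (fin (Finsupp.single n 1))) atTop (𝓝 0) := by
  have key : ∀ F : Finset ℕ, ∑ n ∈ F, |f (fin (Finsupp.single n 1))| ≤ ‖f‖ := by
    intro F
    set sg : ℕ → ℝ := fun n => SignType.sign (f (fin (Finsupp.single n 1))) with hsg
    have h1 : ∑ n ∈ F, |f (fin (Finsupp.single n 1))|
        = f (∑ n ∈ F, sg n • fin (Finsupp.single n 1)) := by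
      rw [map_sum]
      refine Finset.sum_congr rfl fun n _ => ?_
      rw [map_smul, smul_eq_mul, hsg]
      simp only
      rw [sign_mul_self]
    have hcoord : ∀ m, (∑ n ∈ F, sg n • fin (Finsupp.single n 1) : X).1.2.1 m
        = if m ∈ F then sg m else 0 := by
      intro m
      have h2 : (∑ n ∈ F, sg n • fin (Finsupp.single n 1) : X).1.2.1 m
          = ∑ n ∈ F, (sg n • fin (Finsupp.single n 1) : X).1.2.1 m := by
        clear h1
        induction F using Finset.induction_on with
        | empty => rfl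
        | insert a s ha ih =>
          rw [Finset.sum_insert ha, Finset.sum_insert ha, ← ih]
          rfl
      rw [h2]
      have h3 : ∀ n, (sg n • fin (Finsupp.single n 1) : X).1.2.1 m = if n = m then sg n else 0 := by
        intro n
        have h4 : (sg n • fin (Finsupp.single n 1) : X).1.2.1 m
          = sg n * (Finsupp.single n (1 : ℝ)) m := rfl
        rw [h4, Finsupp.single_apply]
        split_ifs <;> simp
      simp only [h3]
      rw [Finset.sum_ite_eq']
    have hfst : (∑ n ∈ F, sg n • fin (Finsupp.single n 1) : X).1.1 = 0 := by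
      clear h1 hcoord
      induction F using Finset.induction_on with
      | empty => rfl
      | insert a s ha ih =>
        rw [Finset.sum_insert ha]
        have h5 : ∀ p q : X, (p + q).1.1 = p.1.1 + q.1.1 := fun _ _ => rfl
        rw [h5, ih]
        have h6 : (sg a • fin (Finsupp.single a 1) : X).1.1 = sg a * 0 := rfl
        rw [h6]
        simp
    have hsg1 : ∀ m, |sg m| ≤ 1 := by
      intro m
      rw [hsg]
      simp only
      rcases SignType.trichotomy (SignType.sign (f (fin (Finsupp.single m 1)))) with h | h | h <;>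
        rw [h] <;> simp
    have hn : ‖(∑ n ∈ F, sg n • fin (Finsupp.single n 1) : X)‖ ≤ 1 := by
      rw [norm_le_iff _ zero_le_one]
      refine ⟨?_, fun m => ?_, fun m => ?_⟩
      · rw [hfst]; simp
      · rw [hcoord]
        split_ifs
        · exact hsg1 m
        · simp
      · rw [hcoord, hfst, sub_zero]
        split_ifs
        · exact hsg1 m
        · simp
    rw [h1]
    calc f _ ≤ |f (∑ n ∈ F, sg n • fin (Finsupp.single n 1))| := le_abs_self _
      _ ≤ ‖f‖ * ‖(∑ n ∈ F, sg n • fin (Finsupp.single n 1) : X)‖ := f.le_opNorm _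
      _ ≤ ‖f‖ * 1 := by gcongr
      _ = ‖f‖ := mul_one _
  have hsum : Summable (fun n => |f (fin (Finsupp.single n 1))|) :=
    summable_of_sum_le (fun n => abs_nonneg _) key
  have := hsum.tendsto_atTop_zero
  exact (tendsto_zero_iff_abs_tendsto_zero _).2 this

theorem z_tendsto (p : X) : Tendsto (fun n => p.1.2.1 n) atTop (𝓝 0) := by
  have := p.1.2.1.zero_at_infty'
  rw [cocompact_eq_atTop] at this
  exact this

/-- A nonempty relatively weakly open subset of the ball is in no ball of radius less than one. -/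
theorem one_le_of_subset {x : X} {W : Set X} {r : ℝ} (hW : IsRelWeaklyOpen W) (hne : W.Nonempty)
    (hsub : W ⊆ Metric.closedBall x r) : 1 ≤ r := by
  obtain ⟨U, hU, rfl⟩ := hW
  obtain ⟨w, hwU, hwB⟩ := hne
  rw [mem_closedBall_zero_iff] at hwB
  have hwB' := (norm_le_iff w zero_le_one).1 hwB
  set s : ℝ := if 0 ≤ w.1.1 then 1 else -1 with hs
  have hs1 : |s| = 1 := by rw [hs]; split_ifs <;> simp
  have hs2 : |s - w.1.1| ≤ 1 := by
    have := abs_le.1 hwB'.1
    rw [hs, abs_le]
    split_ifs with h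
    · constructor <;> linarith
    · rw [not_le] at h
      constructor <;> linarith
  set u : ℕ → X := fun n => w + (s - w.1.2.1 n) • fin (Finsupp.single n 1) with hu
  have hufst : ∀ n, (u n).1.1 = w.1.1 := by
    intro n
    have : (u n).1.1 = w.1.1 + (s - w.1.2.1 n) * 0 := rfl
    rw [this]; simp
  have hucoord : ∀ n m, (u n).1.2.1 m = if m = n then s else w.1.2.1 m := by
    intro n m
    have : (u n).1.2.1 m = w.1.2.1 m + (s - w.1.2.1 n) * (Finsupp.single n (1 : ℝ)) m := rfl
    rw [this, Finsupp.single_apply]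
    by_cases h : m = n
    · subst h; simp
    · rw [if_neg (Ne.symm h), if_neg h]; simp
  have huB : ∀ n, ‖u n‖ ≤ 1 := by
    intro n
    rw [norm_le_iff _ zero_le_one]
    refine ⟨by rw [hufst]; exact hwB'.1, fun m => ?_, fun m => ?_⟩
    · rw [hucoord]
      split_ifs
      · exact hs1.le
      · exact hwB'.2.1 m
    · rw [hucoord, hufst]
      split_ifs
      · exact hs2
      · exact hwB'.2.2 m
  have hweak : Tendsto u atTop (@nhds X (weakTopology X) w) := by
    rw [weakTopology, nhds_induced, tendsto_comap_iff, tendsto_pi_nhds]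
    intro f
    have h1 : ∀ n, ((fun (x : X) (f : X →L[ℝ] ℝ) => f x) ∘ u) n f
        = f w + (s - w.1.2.1 n) * f (fin (Finsupp.single n 1)) := by
      intro n
      simp [hu]
    simp only [h1]
    have h2 : Tendsto (fun n => f w + (s - w.1.2.1 n) * f (fin (Finsupp.single n 1))) atTop
        (𝓝 (f w + (s - 0) * 0)) :=
      tendsto_const_nhds.add ((tendsto_const_nhds.sub (z_tendsto w)).mul (functional_tendsto f))
    simpa using h2
  have hev : ∀ᶠ n in atTop, u n ∈ U :=
    hweak (@IsOpen.mem_nhds X (weakTopology X) w U hU hwU)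
  have hlim : Tendsto (fun n => |s - x.1.2.1 n|) atTop (𝓝 1) := by
    have := ((tendsto_const_nhds (x := s)).sub (z_tendsto x)).abs
    rwa [sub_zero, hs1] at this
  refine le_of_tendsto hlim ?_
  filter_upwards [hev] with n hn
  have h1 := hsub ⟨hn, by rw [mem_closedBall_zero_iff]; exact huB n⟩
  rw [Metric.mem_closedBall, dist_eq_norm] at h1
  have hr : 0 ≤ r := (norm_nonneg _).trans h1
  have h2 := ((norm_le_iff _ hr).1 h1).2.1 n
  have h3 : (u n - x).1.2.1 n = (u n).1.2.1 n - x.1.2.1 n := rfl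
  rw [h3, hucoord, if_pos rfl] at h2
  exact h2

theorem thickness_ge : 1 ≤ thickness X := by
  apply le_csInf
  · refine ⟨2, two_pos, fin (Finsupp.single 0 1), ?_, Metric.closedBall 0 1, ?_, ⟨0, by simp⟩, ?_⟩
    · apply le_antisymm
      · rw [norm_le_iff _ zero_le_one]
        refine ⟨by rw [fin_fst]; simp, fun n => ?_, fun n => ?_⟩
        · rw [fin_apply, Finsupp.single_apply]; split_ifs <;> simp
        · rw [fin_apply, fin_fst, Finsupp.single_apply]; split_ifs <;> simp
      · have := ((norm_le_iff (fin (Finsupp.single 0 1))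
          (norm_nonneg (fin (Finsupp.single 0 1)))).1 le_rfl).2.1 0
        rw [fin_apply] at this
        simpa using this
    · exact ⟨Set.univ, @isOpen_univ X (weakTopology X), by simp⟩
    · intro y hy
      rw [mem_closedBall_zero_iff] at hy
      rw [Metric.mem_closedBall, dist_eq_norm]
      have h1 : ‖fin (Finsupp.single 0 1)‖ ≤ 1 := by
        rw [norm_le_iff _ zero_le_one]
        refine ⟨by rw [fin_fst]; simp, fun n => ?_, fun n => ?_⟩
        · rw [fin_apply, Finsupp.single_apply]; split_ifs <;> simp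
        · rw [fin_apply, fin_fst, Finsupp.single_apply]; split_ifs <;> simp
      calc ‖y - fin (Finsupp.single 0 1)‖ ≤ ‖y‖ + ‖fin (Finsupp.single 0 1)‖ := norm_sub_le _ _
        _ ≤ 2 := by linarith
  · rintro r ⟨-, x, -, W, hW, hne, hsub⟩
    exact one_le_of_subset hW hne hsub

/-- The functional `(t, z) ↦ t`. -/
noncomputable def tf : X →L[ℝ] ℝ := 
  { toFun := fun p => p.1.1
    map_add' := fun _ _ => rfl
    map_smul' := fun _ _ => rfl
    cont := E_fst_continuous.comp continuous_subtype_val }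

/-- The constant part `(1, 0)`. -/
noncomputable def one : X :=
  ⟨(1, 0, BoundedContinuousFunction.const ℕ (-1)), fun n => by simp⟩

theorem slice_small {ε : ℝ} (hε : 0 < ε) : ∃ W : Set X, IsRelWeaklyOpen W ∧ W.Nonempty ∧
    ∀ u ∈ W, ∀ v ∈ W, ‖u - v‖ ≤ 1 + ε := by
  refine ⟨{w | 1 - ε < tf w} ∩ Metric.closedBall 0 1, ⟨_, ?_, rfl⟩, ⟨one, ?_, ?_⟩, ?_⟩
  · have h1 : {w : X | 1 - ε < tf w} = (fun (x : X) (f : X →L[ℝ] ℝ) => f x) ⁻¹'
      {g | 1 - ε < g tf} := rfl
    rw [h1]
    exact isOpen_induced (isOpen_lt continuous_const (continuous_apply tf))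
  · show 1 - ε < 1
    linarith
  · rw [mem_closedBall_zero_iff, norm_le_iff _ zero_le_one]
    simp [one]
  · rintro u ⟨hu, huB⟩ v ⟨hv, hvB⟩
    rw [mem_closedBall_zero_iff, norm_le_iff _ zero_le_one] at huB hvB
    have hu' : 1 - ε < u.1.1 := hu
    have hv' : 1 - ε < v.1.1 := hv
    have hu1 := abs_le.1 huB.1
    have hv1 := abs_le.1 hvB.1
    rw [norm_le_iff _ (by linarith)]
    have e1 : (u - v).1.1 = u.1.1 - v.1.1 := rfl
    have e2 : ∀ n, (u - v).1.2.1 n = u.1.2.1 n - v.1.2.1 n := fun _ => rfl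
    refine ⟨?_, fun n => ?_, fun n => ?_⟩
    · rw [e1, abs_le]
      constructor <;> linarith
    · rw [e2, abs_le]
      have a1 := abs_le.1 (huB.2.1 n)
      have a2 := abs_le.1 (hvB.2.1 n)
      have a3 := abs_le.1 (huB.2.2 n)
      have a4 := abs_le.1 (hvB.2.2 n)
      constructor <;> linarith
    · rw [e2, e1, abs_le]
      have a1 := abs_le.1 (huB.2.1 n)
      have a2 := abs_le.1 (hvB.2.1 n)
      have a3 := abs_le.1 (huB.2.2 n)
      have a4 := abs_le.1 (hvB.2.2 n)
      constructor <;> linarith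

/-- There is a Banach space `X` with `𝒯(X) ≥ 1` such that for every `ε > 0` some nonempty
relatively weakly open subset of the unit ball has diameter at most `1 + ε`. -/
theorem result : ∃ (X : Type) (_ : NormedAddCommGroup X) (_ : NormedSpace ℝ X)
    (_ : CompleteSpace X), 1 ≤ thickness X ∧
      ∀ ε : ℝ, 0 < ε → ∃ W : Set X, IsRelWeaklyOpen W ∧ W.Nonempty ∧ Metric.diam W ≤ 1 + ε := by
  refine ⟨X, inferInstance, inferInstance, inferInstance, thickness_ge, fun ε hε => ?_⟩
  obtain ⟨W, h1, h2, h3⟩ := slice_small hε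
  refine ⟨W, h1, h2, Metric.diam_le_of_forall_dist_le (by linarith) fun u hu v hv => ?_⟩
  rw [dist_eq_norm]
  exact h3 u hu v hv

end Pool.Agent.Results.MP_4410f0_an.SmallSlices
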